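import Pool.Agent.H51.GD.Win
import Pool.Agent.H8.AP.Poly

/-!
# The upper bound with a gap parameter

The points of `{0,1}^n` are mapped to the leaves of the tree: every bit is repeated `r` times and
the remaining leaves are constants, half of them ones.
-/

set_option autoImplicit false

open Finset

namespace Pool.Agent.H51.GD

open H8AP

section Pull

variable {ι κ : Type} [Fintype ι] [Fintype κ]

/-- Substitution of variables and constants. -/
def pull (π : ι → Option κ) (b : ι → Bool) (x : κ → Bool) (i : ι) : Bool := (π i).elim (b i) x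

theorem KC_pull {A B : Set (ι → Bool)} {K : (ι → Bool) → (ι → Bool) → ℝ} {c : ℝ}
    (π : ι → Option κ) (b : ι → Bool) (h : KC A B K c) :
    KC (ι := κ) {x | pull π b x ∈ A} {y | pull π b y ∈ B}
      (fun x y => K (pull π b x) (pull π b y)) c := by
  classical
  obtain ⟨E, hE, u, v, hu, hv, hk⟩ := h
  have hone : ∀ (i : ι) (a : ℝ), 0 ≤ a → ∑ k : κ, (if π i = some k then a else 0) ≤ a := by
    intro i a ha
    rcases hπ : π i with _ | k₀
    · simp [ha]
    · have : ∀ k : κ, (if some k₀ = some k then a else 0) = if k₀ = k then a else 0 := by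
        intro k
        by_cases hk : k₀ = k
        · simp [hk]
        · rw [if_neg hk, if_neg (fun h => hk (Option.some_injective _ h))]
      simp_rw [this]
      rw [Finset.sum_ite_eq]
      simp
  have hnorm : ∀ (w : (ι → Bool) → ι → E → ℝ) (x : ι → Bool),
      ∑ k : κ, ∑ e : ι × E, (if π e.1 = some k then w x e.1 e.2 else 0) ^ 2 ≤
        ∑ i, ∑ e, (w x i e) ^ 2 := by
    intro w x
    rw [Finset.sum_comm, Fintype.sum_prod_type]
    refine Finset.sum_le_sum fun i _ => Finset.sum_le_sum fun e _ => ?_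
    refine le_trans (le_of_eq ?_) (hone i ((w x i e) ^ 2) (sq_nonneg _))
    refine Finset.sum_congr rfl fun k _ => ?_
    split_ifs <;> simp
  refine ⟨ι × E, inferInstance, fun x k e => if π e.1 = some k then u (pull π b x) e.1 e.2 else 0,
    fun y k e => if π e.1 = some k then v (pull π b y) e.1 e.2 else 0, fun x hx => ?_,
    fun y hy => ?_, fun x hx y hy => ?_⟩
  · exact (hnorm u (pull π b x)).trans (hu _ hx)
  · exact (hnorm v (pull π b y)).trans (hv _ hy)
  · beta_reduce
    rw [← hk (pull π b x) hx (pull π b y) hy]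
    rw [Finset.sum_comm, Fintype.sum_prod_type]
    refine Finset.sum_congr rfl fun i _ => Finset.sum_congr rfl fun e _ => ?_
    rcases hπ : π i with _ | k₀
    · have h1 : pull π b x i = pull π b y i := by unfold pull; rw [hπ]; rfl
      rw [if_pos h1]
      apply Finset.sum_eq_zero
      intro k _
      simp
    · have h1 : pull π b x i = x k₀ := by unfold pull; rw [hπ]; rfl
      have h2 : pull π b y i = y k₀ := by unfold pull; rw [hπ]; rfl
      rw [h1, h2]
      rw [Finset.sum_eq_single k₀]
      · simp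
      · intro k _ hk
        have : ¬ some k₀ = some k := fun h => hk (Option.some_injective _ h).symm
        simp [this]
      · simp

end Pull

/-- The variable substituted for a leaf. -/
def pvar {n r q : ℕ} : (Fin r × Fin n) ⊕ Fin q → Option (Fin n)
  | Sum.inl a => some a.2
  | Sum.inr _ => none

/-- The constant substituted for a leaf. -/
def pcst {n r q : ℕ} (k : ℕ) : (Fin r × Fin n) ⊕ Fin q → Bool
  | Sum.inl _ => false
  | Sum.inr c => decide (c.val < k)

/-- A substitution with `r` copies of every bit and `k` ones among the constants. -/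
theorem exists_pull {ι : Type} [Fintype ι] {n r k : ℕ} (hr : r * n ≤ Fintype.card ι)
    (hk : k ≤ Fintype.card ι - r * n) :
    ∃ (π : ι → Option (Fin n)) (b : ι → Bool), ∀ x : Fin n → Bool,
      wt (pull π b x) = r * wt x + k := by
  classical
  have hcard : Fintype.card ι = Fintype.card ((Fin r × Fin n) ⊕ Fin (Fintype.card ι - r * n)) := by
    rw [Fintype.card_sum, Fintype.card_prod, Fintype.card_fin, Fintype.card_fin, Fintype.card_fin]
    omega
  set q := Fintype.card ι - r * n with hq
  set e : ι ≃ (Fin r × Fin n) ⊕ Fin q := Fintype.equivOfCardEq hcard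
  refine ⟨fun i => pvar (e i), fun i => pcst k (e i), fun x => ?_⟩
  unfold wt
  rw [Finset.card_filter]
  rw [← Equiv.sum_comp e.symm]
  rw [Fintype.sum_sum_type]
  have h1 : ∀ a : Fin r × Fin n, (if pull (fun i => pvar (e i)) (fun i => pcst k (e i)) x
        (e.symm (Sum.inl a)) = true then 1 else 0) = if x a.2 = true then 1 else 0 := by
    intro a
    unfold pull
    simp [pvar]
  have h2 : ∀ c : Fin q, (if pull (fun i => pvar (e i)) (fun i => pcst k (e i)) x
        (e.symm (Sum.inr c)) = true then 1 else 0) = if c.val < k then 1 else 0 := by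
    intro c
    unfold pull
    simp [pvar, pcst]
  rw [Finset.sum_congr rfl (fun a _ => h1 a), Finset.sum_congr rfl (fun c _ => h2 c)]
  congr 1
  · rw [Fintype.sum_prod_type]
    show ∑ _a : Fin r, ∑ y : Fin n, (if x y = true then 1 else 0) = _
    rw [Finset.sum_const, Finset.card_univ, Fintype.card_fin, smul_eq_mul, Finset.card_filter]
  · rw [← Finset.card_filter, Fin.card_filter_val_lt]
    exact min_eq_right hk

/-- The total function for `n`, with the gap `δ`. -/
theorem exists_fun (n : ℕ) (hn : 1 ≤ n) (h u Q P₀ : ℕ) (G : ℕ → ℕ) (hG : ∀ j, 1 ≤ G j)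
    (hu : 1 ≤ u)
    (hP : P₀ = 16 * (h + 1) * ∏ i ∈ Finset.range h, G i) (hm : n ≤ 2 ^ h * (u * (Q * P₀)))
    {δ : ℝ} (hδ0 : 0 < δ) (hδ : 1 ≤ δ * Q)
    {c : ℝ} (hc : Cost (tree u (Q * P₀) G h) 1 c) :
    ∃ F : (Fin n → Bool) → Bool, KC {x | F x = true} {x | F x = false} (fun _ _ => 1) c ∧
      (∀ x, δ * n ≤ 2 * (wt x : ℝ) - n → F x = true) ∧
      (∀ x, 2 * (wt x : ℝ) - n ≤ -(δ * n) → F x = false) := by
  classical
  set T := tree u (Q * P₀) G h with hT
  set m := Fintype.card T.ι with hmdef
  have hcard : m = 2 ^ h * (u * (Q * P₀)) := tree_card h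
  have hnm : n ≤ m := by rw [hcard]; exact hm
  set r := m / n with hr
  have hr1 : 1 ≤ r := (Nat.one_le_div_iff (by omega)).2 hnm
  have hrn : r * n ≤ m := Nat.div_mul_le_self m n
  have hrn2 : m < r * n + n := by
    have h1 := Nat.lt_div_mul_add (a := m) (b := n) (by omega)
    exact h1
  set k := (m - r * n) / 2 with hk
  obtain ⟨π, b, hπ⟩ := exists_pull (ι := T.ι) (n := n) (r := r) (k := k) hrn
    (Nat.div_le_self _ _)
  set M : ℕ := u * 2 ^ h * ∏ i ∈ Finset.range h, G i with hM
  have hM1 : 1 ≤ M := Nat.one_le_iff_ne_zero.2 (mul_ne_zero (by positivity)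
    (Finset.prod_ne_zero_iff.2 fun i _ => by have := hG i; omega))
  have hmM : m = 16 * (h + 1) * Q * M := by
    rw [hcard, hP, hM]
    ring
  -- real forms
  have hmr : (m : ℝ) = 16 * (h + 1) * Q * M := by rw [hmM]; push_cast; ring
  have hrnr : (r : ℝ) * n ≤ m := by exact_mod_cast hrn
  have hrn2r : (m : ℝ) < r * n + n := by exact_mod_cast hrn2
  have hr1r : (1 : ℝ) ≤ r := by exact_mod_cast hr1
  have hnr : (1 : ℝ) ≤ n := by exact_mod_cast hn
  have hM1r : (1 : ℝ) ≤ M := by exact_mod_cast hM1
  have hhalf : (m : ℝ) ≤ 2 * (r * n) := by nlinarith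
  have hk1 : 2 * k ≤ m - r * n := Nat.mul_div_le _ _
  have hk2 : m - r * n ≤ 2 * k + 1 := by omega
  have hk1r : 2 * (k : ℝ) + r * n ≤ m := by
    have : 2 * k + r * n ≤ m := by omega
    exact_mod_cast this
  have hk2r : (m : ℝ) ≤ 2 * k + 1 + r * n := by
    have : m ≤ 2 * k + 1 + r * n := by omega
    exact_mod_cast this
  have hwr : ∀ x : Fin n → Bool, (wt (pull π b x) : ℝ) = r * wt x + k := by
    intro x
    rw [hπ x]; push_cast; ring
  refine ⟨fun x => decide (8 * (h + 1 : ℤ) * Q ≤ T.V (pull π b x)), ?_, fun x hx => ?_,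
    fun x hx => ?_⟩
  · refine KC.mono (KC_pull π b (hc (8 * (h + 1 : ℤ) * Q - 1))) ?_ ?_ le_rfl
    · intro x hx
      have h1 : 8 * (h + 1 : ℤ) * Q ≤ T.V (pull π b x) := of_decide_eq_true hx
      show 8 * (h + 1 : ℤ) * Q - 1 + ((1 : ℕ) : ℤ) ≤ T.V (pull π b x)
      push_cast
      omega
    · intro x hx
      have h1 : ¬ 8 * (h + 1 : ℤ) * Q ≤ T.V (pull π b x) := of_decide_eq_false hx
      show T.V (pull π b x) ≤ 8 * (h + 1 : ℤ) * Q - 1
      omega
  · refine decide_eq_true ?_
    by_contra hV
    have h1 := (tree_wt (P := Q * P₀) hu hG h (pull π b x)).2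
    have h5 : (T.V (pull π b x) : ℝ) ≤ 8 * (h + 1) * Q - 1 := by
      have h6 : T.V (pull π b x) ≤ 8 * (h + 1 : ℤ) * Q - 1 := by omega
      exact_mod_cast h6
    have h1r : (wt (pull π b x) : ℝ) < M * ((T.V (pull π b x) : ℝ) + h + 1) := by
      exact_mod_cast h1
    have h7 : (wt (pull π b x) : ℝ) < M * (8 * (h + 1) * Q + h) := by
      refine h1r.trans_le (mul_le_mul_of_nonneg_left (by linarith) (by linarith))
    rw [hwr x] at h7
    -- `r δ n < 2 M h + 1`
    have h8 : r * (δ * n) < 2 * M * h + 1 := by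
      have h9 : (r : ℝ) * (δ * n) ≤ r * (2 * wt x - n) :=
        mul_le_mul_of_nonneg_left hx (by linarith)
      nlinarith
    have h10 : 8 * ((h : ℝ) + 1) * M ≤ r * (δ * n) := by
      have h11 : δ * m ≤ δ * (2 * (r * n)) := mul_le_mul_of_nonneg_left hhalf hδ0.le
      have h12 : 16 * ((h : ℝ) + 1) * M ≤ δ * m := by
        rw [hmr]
        have h13 : (0 : ℝ) ≤ 16 * (h + 1) * M := by positivity
        nlinarith
      nlinarith
    have h14 : (0 : ℝ) ≤ h := Nat.cast_nonneg h
    nlinarith
  · refine decide_eq_false fun hV => ?_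
    have h1 := (tree_wt (P := Q * P₀) hu hG h (pull π b x)).1
    have h4 : ((M : ℤ)) * (8 * (h + 1) * Q) ≤ wt (pull π b x) :=
      (mul_le_mul_of_nonneg_left hV (Nat.cast_nonneg _)).trans h1
    have h6 : (M : ℝ) * (8 * (h + 1) * Q) ≤ wt (pull π b x) := by exact_mod_cast h4
    rw [hwr x] at h6
    have h7 : (0 : ℝ) < δ * n := by positivity
    have h8 : 0 ≤ (r : ℝ) * (2 * wt x - n) := by nlinarith
    have h9 : 2 * (wt x : ℝ) - n < 0 := by linarith
    nlinarith

end Pool.Agent.H51.GD
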