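import Pool.Agent.H8.AP.Cst

/-!
# The far field of the floor tree with the Cauchy kernel

A function within `ε` of `V` with difference cost `L` separates `V ≥ θ + t` from `V ≤ θ` at cost
`L / τ`, if `2 ε + τ ≤ t`: multiply the difference kernel by the Cauchy kernel.
-/

set_option autoImplicit false

open Finset

namespace Pool.Agent.H51.GD

open H8AP

variable {N : Node}

theorem link_cost {ε L τ : ℝ} {t : ℕ} (hL : 0 ≤ L) (hτ : 0 < τ) (h : LinK N ε L)
    (ht : 2 * ε + τ ≤ t) : Cost N t (τ⁻¹ * L) := by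
  classical
  intro θ
  obtain ⟨y, hy, hK⟩ := h
  set m : ℝ := θ + ε + τ / 2 with hm
  obtain ⟨F, hF, a, ha1, -, ha2⟩ := cauchy_gram (fun x => |y x - m|) (fun x => abs_nonneg _)
  have hA : ∀ x ∈ {x | θ + (t : ℤ) ≤ N.V x}, τ / 2 ≤ y x - m := by
    intro x hx
    have h1 := abs_le.1 (hy x)
    have h2 : (θ : ℝ) + t ≤ (N.V x : ℝ) := by
      have : θ + (t : ℤ) ≤ N.V x := hx
      exact_mod_cast this
    rw [hm]
    linarith [h1.1, h1.2]
  have hB : ∀ x ∈ {x | N.V x ≤ θ}, τ / 2 ≤ m - y x := by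
    intro x hx
    have h1 := abs_le.1 (hy x)
    have h2 : (N.V x : ℝ) ≤ θ := by
      have : N.V x ≤ θ := hx
      exact_mod_cast this
    rw [hm]
    linarith [h1.1, h1.2]
  have hsq : ∀ x, τ / 2 ≤ |y x - m| → ∑ f, (a x f / √|y x - m|) ^ 2 ≤ τ⁻¹ := by
    intro x hx
    have h0 : 0 < |y x - m| := by linarith
    have h1 : ∀ f, (a x f / √|y x - m|) ^ 2 = a x f ^ 2 / |y x - m| := by
      intro f
      rw [div_pow, Real.sq_sqrt h0.le]
    simp_rw [h1]
    rw [← Finset.sum_div, div_le_iff₀ h0]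
    have h2 : 1 / 2 ≤ τ⁻¹ * |y x - m| := by
      have h3 : τ⁻¹ * (τ / 2) ≤ τ⁻¹ * |y x - m| := mul_le_mul_of_nonneg_left hx (by positivity)
      have h4 : τ⁻¹ * (τ / 2) = 1 / 2 := by field_simp
      linarith
    exact (ha1 x).trans h2
  have h1 := KC.mul (fun x f => a x f / √|y x - m|) (fun x f => a x f / √|y x - m|)
    (A := {x | θ + (t : ℤ) ≤ N.V x}) (B := {x | N.V x ≤ θ}) (m := τ⁻¹) (by positivity) hL
    (fun x hx => hsq x (by rw [abs_of_nonneg (by linarith [hA x hx])]; exact hA x hx))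
    (fun x hx => hsq x (by rw [abs_sub_comm, abs_of_nonneg (by linarith [hB x hx])]; exact hB x hx))
    (hK.mono (Set.subset_univ _) (Set.subset_univ _) le_rfl)
  refine h1.congr ?_
  intro x hx x' hx'
  have p1 := hA x hx
  have p2 := hB x' hx'
  have e1 : |y x - m| = y x - m := abs_of_nonneg (by linarith)
  have e2 : |y x' - m| = m - y x' := by rw [abs_sub_comm]; exact abs_of_nonneg (by linarith)
  have q1 : 0 < |y x - m| := by rw [e1]; linarith
  have q2 : 0 < |y x' - m| := by rw [e2]; linarith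
  have h3 : ∑ f, a x f / √|y x - m| * (a x' f / √|y x' - m|) =
      (∑ f, a x f * a x' f) / (√|y x - m| * √|y x' - m|) := by
    rw [Finset.sum_div]
    apply Finset.sum_congr rfl; intro f _
    rw [div_mul_div_comm]
  rw [h3, ha2 x x' q1 q2]
  have s1 : 0 < √|y x - m| := Real.sqrt_pos.2 q1
  have s2 : 0 < √|y x' - m| := Real.sqrt_pos.2 q2
  have h4 : √|y x - m| * √|y x' - m| / (|y x - m| + |y x' - m|) / (√|y x - m| * √|y x' - m|) =
      1 / (|y x - m| + |y x' - m|) := by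
    field_simp
  rw [h4, e1, e2]
  have h5 : y x - m + (m - y x') = y x - y x' := by ring
  rw [h5, one_div, inv_mul_cancel₀]
  linarith

theorem tree_link {u P : ℕ} {G : ℕ → ℕ} (hu : 1 ≤ u) (hG : ∀ j, 1 ≤ G j) (j : ℕ) :
    LinK (tree u P G j) ((j + 1) / 2) P := by
  induction j with
  | zero =>
    have h := base_link (P := P) hu
    have e : (((0:ℕ) : ℝ) + 1) / 2 = 1 / 2 := by norm_num
    rw [e]; exact h
  | succ j ih =>
    have := LinK.step (g := G j) (hG j) (by positivity) (Nat.cast_nonneg _) ih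
    have h2 : (((j + 1 : ℕ) : ℝ) + 1) / 2 = ((j:ℝ) + 1) / 2 + 1 / 2 := by push_cast; ring
    rw [h2]
    exact this

/-- The far field. -/
theorem tree_far {u P : ℕ} {G : ℕ → ℕ} (hu : 1 ≤ u) (hG : ∀ j, 1 ≤ G j)
    {j t : ℕ} (ht : j + 2 ≤ t) : cst (tree u P G j) t ≤ P / ((t : ℝ) - (j + 1)) := by
  have ht' : ((j:ℝ) + 2) ≤ t := by exact_mod_cast ht
  have hτ : (0 : ℝ) < (t : ℝ) - (j + 1) := by linarith
  have h := link_cost (Nat.cast_nonneg P) hτ (tree_link (P := P) hu hG j) (t := t)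
    (by linarith)
  have h2 : ((t : ℝ) - (j + 1))⁻¹ * P = P / ((t : ℝ) - (j + 1)) := by
    rw [div_eq_inv_mul]
  rw [h2] at h
  exact cst_le (by positivity) h

/-- The tail of the far field. -/
theorem tree_tail {u P : ℕ} {G : ℕ → ℕ} (hu : 1 ≤ u) (hG : ∀ j, 1 ≤ G j)
    {j T : ℕ} (hT : 2 * (j + 1) ≤ T) :
    ∑ t ∈ Finset.Ioc T P, cst (tree u P G j) t ≤ 2 * P * (1 + Real.log P) := by
  have h1 : ∀ t ∈ Finset.Ioc T P, cst (tree u P G j) t ≤ 2 * P * ((t : ℝ))⁻¹ := by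
    intro t ht
    rw [Finset.mem_Ioc] at ht
    refine (tree_far hu hG (by omega)).trans ?_
    have h2 : (2 * (j + 1) : ℝ) ≤ t := by
      have : 2 * (j + 1) ≤ t := by omega
      exact_mod_cast this
    have h3 : (0 : ℝ) < t := by
      have : (0 : ℝ) ≤ j := Nat.cast_nonneg j
      linarith
    rw [div_le_iff₀ (by linarith), mul_comm (2 * (P : ℝ)), mul_assoc, ← div_eq_inv_mul,
      le_div_iff₀ h3]
    have h4 : (0 : ℝ) ≤ P := Nat.cast_nonneg P
    nlinarith
  refine (Finset.sum_le_sum h1).trans ?_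
  rw [← Finset.mul_sum]
  refine mul_le_mul_of_nonneg_left ?_ (by positivity)
  have h5 : ∑ t ∈ Finset.Ioc T P, ((t : ℝ))⁻¹ ≤ ∑ t ∈ Finset.Icc 1 P, ((t : ℝ))⁻¹ := by
    apply Finset.sum_le_sum_of_subset_of_nonneg
    · intro t ht
      rw [Finset.mem_Ioc] at ht
      rw [Finset.mem_Icc]
      omega
    · intro t _ _
      positivity
  refine h5.trans ?_
  have h6 := harmonic_le_one_add_log P
  have h7 : ((harmonic P : ℚ) : ℝ) = ∑ t ∈ Finset.Icc 1 P, ((t : ℝ))⁻¹ := by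
    rw [harmonic_eq_sum_Icc]
    push_cast
    rfl
  rw [← h7]
  exact h6

end Pool.Agent.H51.GD
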