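import Pool.Agent.H82.GapDeg.Two
import Pool.Agent.H60.BernForm

/-!
# The lower bound with a gap parameter

(The same argument as in `Pool/Agent/Results/MP_1e0d25_lc/GapLowerBound.lean`.)
-/

open Finset

namespace Pool.Agent.H51.GD

variable {n : ℕ}

/-- The number of ones of `x`. -/
def ones (x : Fin n → Bool) : ℕ := (univ.filter fun i => x i = true).card

/-- The point `x` with the bit `i` flipped. -/
def flip (x : Fin n → Bool) (i : Fin n) : Fin n → Bool := Function.update x i (!x i)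

open Classical in
/-- The quadratic form of the adjacency matrix of the sensitivity graph of `F`. -/
noncomputable def form (F : (Fin n → Bool) → Bool) (v : (Fin n → Bool) → ℝ) : ℝ :=
  ∑ x, ∑ i, if F (flip x i) ≠ F x then v x * v (flip x i) else 0

lemma flip_flip (x : Fin n → Bool) (i : Fin n) : flip (flip x i) i = x := by
  funext j
  unfold flip
  by_cases h : j = i
  · subst h; simp
  · rw [Function.update_of_ne h, Function.update_of_ne h]

lemma sum_flip (f : (Fin n → Bool) → ℝ) (i : Fin n) : ∑ x, f (flip x i) = ∑ x, f x :=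
  Equiv.sum_comp (Function.Involutive.toPerm (fun x => flip x i) (fun x => flip_flip x i)) f

/-- A bound `m` of the form gives the bound `m ^ 2` for the squared norm of the bipartite
adjacency matrix. -/
lemma bilin {F : (Fin n → Bool) → Bool} {m : ℝ}
    (hm : ∀ v : (Fin n → Bool) → ℝ, form F v ≤ m * ∑ x, v x ^ 2) (u v : (Fin n → Bool) → ℝ)
    (_ : ∀ x, 0 ≤ u x) (_ : ∀ x, 0 ≤ v x)
    (hu : ∀ x, ¬ F x = true → u x = 0) (hv : ∀ x, F x = true → v x = 0) :
    (∑ x, ∑ i, u x * v (Pool.H25.GapDeg.fl i x)) ^ 2 ≤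
      m ^ 2 * (∑ x, u x ^ 2) * (∑ x, v x ^ 2) := by
  classical
  have hfl : ∀ (x : Fin n → Bool) (i : Fin n), Pool.H25.GapDeg.fl i x = flip x i := fun x i => rfl
  simp_rw [hfl]
  set X : ℝ := ∑ x, ∑ i, u x * v (flip x i) with hX
  have hX2 : ∑ x, ∑ i, v x * u (flip x i) = X := by
    rw [hX, Finset.sum_comm]
    conv_rhs => rw [Finset.sum_comm]
    apply Finset.sum_congr rfl; intro i _
    rw [← sum_flip (fun x => v x * u (flip x i)) i]
    apply Finset.sum_congr rfl; intro x _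
    rw [flip_flip]; ring
  have huv : ∀ x, u x * v x = 0 := by
    intro x
    by_cases h : F x = true
    · rw [hv x h, mul_zero]
    · rw [hu x h, zero_mul]
  have hform : ∀ t : ℝ, form F (fun x => t * u x + v x) = 2 * t * X := by
    intro t
    have h1 : form F (fun x => t * u x + v x) =
        ∑ x, ∑ i, (t * (u x * v (flip x i)) + t * (v x * u (flip x i))) := by
      unfold form
      apply Finset.sum_congr rfl; intro x _
      apply Finset.sum_congr rfl; intro i _
      show (if F (flip x i) ≠ F x then (t * u x + v x) * (t * u (flip x i) + v (flip x i))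
        else 0) = _
      by_cases hx : F x = true
      · rw [hv x hx]
        by_cases hy : F (flip x i) = true
        · rw [if_neg (by rw [hx, hy]; simp), hv _ hy]; ring
        · rw [if_pos (by rw [hx]; exact hy), hu _ hy]; ring
      · rw [hu x hx]
        have hx' : F x = false := by simpa using hx
        by_cases hy : F (flip x i) = true
        · rw [if_pos (by rw [hx', hy]; simp), hv _ hy]; ring
        · have hy' : F (flip x i) = false := by simpa using hy
          rw [if_neg (by rw [hx', hy']; simp), hu _ hy]; ring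
    have h2 : ∑ x, ∑ i, (t * (u x * v (flip x i)) + t * (v x * u (flip x i))) =
        t * (∑ x, ∑ i, u x * v (flip x i)) + t * ∑ x, ∑ i, v x * u (flip x i) := by
      rw [Finset.mul_sum, Finset.mul_sum, ← Finset.sum_add_distrib]
      apply Finset.sum_congr rfl; intro x _
      rw [Finset.mul_sum, Finset.mul_sum, ← Finset.sum_add_distrib]
    rw [h1, h2, hX2, ← hX]; ring
  have hsq : ∀ t : ℝ, ∑ x, (t * u x + v x) ^ 2 = t ^ 2 * (∑ x, u x ^ 2) + ∑ x, v x ^ 2 := by
    intro t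
    rw [Finset.mul_sum, ← Finset.sum_add_distrib]
    apply Finset.sum_congr rfl; intro x _
    have := huv x
    linear_combination 2 * t * this
  have hd := discrim_le_zero (a := m * ∑ x, u x ^ 2) (b := -(2 * X)) (c := m * ∑ x, v x ^ 2)
    (fun t => by
      have h := hm (fun x => t * u x + v x)
      rw [hform, hsq] at h
      linarith)
  unfold discrim at hd
  linarith

/-- The layer inequality, for any bound `m` of the form. -/
theorem layer {s₀ s₁ : ℕ} (hs : 1 ≤ s₀) (h01 : s₀ ≤ s₁) (h1n : s₁ ≤ n)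
    {F : (Fin n → Bool) → Bool} (hlo : ∀ x, ones x < s₀ → F x = false)
    (hhi : ∀ x, s₁ ≤ ones x → F x = true) {m : ℝ}
    (hm : ∀ v : (Fin n → Bool) → ℝ, form F v ≤ m * ∑ x, v x ^ 2) :
    (s₀ : ℝ) * (n + 1 - s₀) ≤ m ^ 2 * (s₁ - s₀ + 1) :=
  Pool.H25.GapDeg.thick (F := fun x => F x = true) (m ^ 2) (sq_nonneg m) (bilin hm) s₀ hs h01 h1n
    (fun x hx => by rw [hlo x hx]; simp) (fun x hx => hhi x hx)

/-- The degree inequality. -/
theorem deg {s₀ s₁ d : ℕ} (hs : 1 ≤ s₀) (h01 : s₀ ≤ s₁) (h1n : s₁ ≤ n)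
    {f : (Fin n → Bool) → ℝ} (hd : Pool.Agent.H78.AM.DegLE d f)
    (hgap : ∀ x, f x ∈ Set.Icc (-1 : ℝ) (-(2 / 3)) ∪ Set.Icc (2 / 3 : ℝ) 1)
    (hlo : ∀ x, ones x < s₀ → f x < 0) (hhi : ∀ x, s₁ ≤ ones x → 0 < f x) :
    4 * ((s₀ : ℝ) * (n + 1 - s₀)) ≤ 9 * (d : ℝ) ^ 2 * (s₁ - s₀ + 1) := by
  classical
  set F : (Fin n → Bool) → Bool := fun x => decide (0 < f x) with hF
  have h1 : ∀ x, F x = true → 2 / 3 ≤ f x ∧ f x ≤ 1 := by
    intro x hx
    have hx' : 0 < f x := by simpa [hF] using hx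
    rcases hgap x with h | h
    · exfalso; linarith [h.2]
    · exact ⟨h.1, h.2⟩
  have h0 : ∀ x, F x = false → -1 ≤ f x ∧ f x ≤ -(2 / 3) := by
    intro x hx
    have hx' : ¬ 0 < f x := by simpa [hF] using hx
    rcases hgap x with h | h
    · exact ⟨h.1, h.2⟩
    · exfalso; linarith [h.1]
  have hl : ∀ x, ones x < s₀ → F x = false := fun x hx => by
    have := hlo x hx
    simp only [hF, decide_eq_false_iff_not, not_lt]; exact this.le
  have hh : ∀ x, s₁ ≤ ones x → F x = true := fun x hx => by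
    have := hhi x hx
    simp only [hF, decide_eq_true_eq]; exact this
  have hm : ∀ v : (Fin n → Bool) → ℝ, form F v ≤ 3 / 2 * (d : ℝ) * ∑ x, v x ^ 2 :=
    fun v => Pool.Agent.H60.Bern.form_le hd h1 h0 v
  have h2 := layer hs h01 h1n hl hh hm
  linarith

/-- The lower bound, for every gap `δ ∈ [1/n, 1]`. -/
theorem lower (hn : 1 ≤ n) {δ : ℝ} (hδn : 1 / (n : ℝ) ≤ δ) (hδ1 : δ ≤ 1) {d : ℕ}
    {f : (Fin n → Bool) → ℝ} (hd : Pool.Agent.H78.AM.DegLE d f)
    (hgap : ∀ x, f x ∈ Set.Icc (-1 : ℝ) (-(2 / 3)) ∪ Set.Icc (2 / 3 : ℝ) 1)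
    (hlo : ∀ x, 2 * (ones x : ℝ) - n ≤ -(δ * n) → f x < 0)
    (hhi : ∀ x, δ * n ≤ 2 * (ones x : ℝ) - n → 0 < f x) :
    1 ≤ d ∧ (1 - δ) * n / δ ≤ 27 * (d : ℝ) ^ 2 := by
  have hn0 : (1 : ℝ) ≤ n := by exact_mod_cast hn
  have hδ0 : 0 < δ := lt_of_lt_of_le (by positivity) hδn
  have hδn' : 1 ≤ δ * n := by rwa [div_le_iff₀ (by linarith)] at hδn
  have ha : 0 ≤ (1 - δ) * n / 2 := by
    have : 0 ≤ (1 - δ) * n := mul_nonneg (by linarith) (by linarith)
    linarith
  set a : ℕ := ⌊(1 - δ) * n / 2⌋₊ with hadef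
  set b : ℕ := ⌈(1 + δ) * n / 2⌉₊ with hbdef
  have ha1 : (a : ℝ) ≤ (1 - δ) * n / 2 := Nat.floor_le ha
  have ha2 : (1 - δ) * n / 2 < a + 1 := Nat.lt_floor_add_one _
  have hb1 : (1 + δ) * n / 2 ≤ b := Nat.le_ceil _
  have hb2 : (b : ℝ) < (1 + δ) * n / 2 + 1 := Nat.ceil_lt_add_one (by positivity)
  have hab : a + 1 ≤ b := by
    have : ((a + 1 : ℕ) : ℝ) ≤ b := by push_cast; linarith
    exact_mod_cast this
  have hbn : b ≤ n := Nat.ceil_le.2 (by nlinarith)
  have hbnr : (b : ℝ) ≤ n := by exact_mod_cast hbn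
  have h := deg (s₀ := a + 1) (s₁ := b) (by omega) hab hbn hd hgap
    (fun x hx => hlo x (by
      have : (ones x : ℝ) ≤ a := by exact_mod_cast Nat.lt_succ_iff.1 hx
      linarith))
    (fun x hx => hhi x (by
      have : (b : ℝ) ≤ ones x := by exact_mod_cast hx
      linarith))
  push_cast at h
  have hw : (b : ℝ) - (a + 1) + 1 ≤ 3 * (δ * n) := by linarith
  have han : (a : ℝ) + 1 ≤ n := by
    have : ((a + 1 : ℕ) : ℝ) ≤ n := by exact_mod_cast hab.trans hbn
    push_cast at this; exact this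
  constructor
  · by_contra hc
    have hd0 : d = 0 := by omega
    subst hd0
    have h1 : 0 < ((a : ℝ) + 1) * (n + 1 - (a + 1)) := by
      apply mul_pos (by positivity)
      linarith
    norm_num at h
    linarith
  · rw [div_le_iff₀ hδ0]
    have h1 : (1 - δ) * n / 2 * ((1 + δ) * n / 2) ≤ ((a : ℝ) + 1) * (n + 1 - (a + 1)) := by
      refine mul_le_mul ha2.le (by linarith) (by positivity) (by positivity)
    have h2 : 9 * (d : ℝ) ^ 2 * ((b : ℝ) - (a + 1) + 1) ≤ 9 * (d : ℝ) ^ 2 * (3 * (δ * n)) :=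
      mul_le_mul_of_nonneg_left hw (by positivity)
    have h3 : (1 - δ) * n * n ≤ 27 * (d : ℝ) ^ 2 * δ * n := by
      have h4 : 0 ≤ (1 - δ) * n * (δ * n) :=
        mul_nonneg (mul_nonneg (by linarith) (by linarith)) (by linarith)
      nlinarith
    exact le_of_mul_le_mul_right h3 (by linarith)

end Pool.Agent.H51.GD
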