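import Pool.Agent.H51.GD.Emb

/-!
# The upper bound with a gap parameter

For a gap `δ ≥ 1/n` the degree `√(n/δ)` is enough up to a power of `log n`.
-/

set_option autoImplicit false

open Finset

namespace Pool.Agent.H51.GD

open H8AP

/-- A total function, with its adversary bound. -/
theorem upperF : ∃ (C : ℝ) (κ : ℕ), 0 ≤ C ∧ ∀ n : ℕ, 1 ≤ n → ∀ δ : ℝ, 1 / (n : ℝ) ≤ δ → δ ≤ 1 →
    ∃ (W : ℝ) (F : (Fin n → Bool) → Bool), 1 ≤ W ∧ W ≤ C * √(n / δ) * (1 + Real.log n) ^ κ ∧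
      KC {x | F x = true} {x | F x = false} (fun _ _ => 1) W ∧
      (∀ x, δ * n ≤ 2 * (wt x : ℝ) - n → F x = true) ∧
      (∀ x, 2 * (wt x : ℝ) - n ≤ -(δ * n) → F x = false) := by
  obtain ⟨κ, hκ⟩ := root
  refine ⟨7 * 6 ^ κ * (2201 * (1 + 6 * κ)) * 3, κ + 1, by positivity, fun n hn δ hδn hδ1 => ?_⟩
  have hn0 : (1 : ℝ) ≤ n := by exact_mod_cast hn
  have hδ0 : 0 < δ := lt_of_lt_of_le (by positivity) hδn
  have hl0 : 0 ≤ Real.log n := Real.log_nonneg hn0
  -- the block size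
  set Q : ℕ := ⌈1 / δ⌉₊ with hQ
  have hQle : 1 / δ ≤ Q := Nat.le_ceil _
  have hδQ : 1 ≤ δ * Q := by
    rw [div_le_iff₀ hδ0] at hQle
    linarith
  have hQ1 : 1 ≤ Q := Nat.ceil_pos.2 (by positivity)
  have hinv : 1 ≤ 1 / δ := by rw [le_div_iff₀ hδ0]; linarith
  have hQ2 : (Q : ℝ) ≤ 2 / δ := by
    have h1 := (Nat.ceil_lt_add_one (show 0 ≤ 1 / δ by positivity)).le
    have h2 : 2 / δ = 1 / δ + 1 / δ := by ring
    rw [h2]
    linarith
  have hQn : Q ≤ n := by
    refine Nat.ceil_le.2 ?_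
    rw [div_le_iff₀ hδ0]
    rw [div_le_iff₀ (by positivity)] at hδn
    linarith
  have hQr : (1 : ℝ) ≤ Q := by exact_mod_cast hQ1
  -- the height
  obtain ⟨h, hh1, hh2⟩ : ∃ h : ℕ, n ≤ Q * 2 ^ h ∧ Q * 2 ^ h ≤ 4 * n := by
    have ha : 1 ≤ n / Q := (Nat.one_le_div_iff (by omega)).2 hQn
    have h0 : n < Q * (n / Q + 1) := Nat.lt_mul_div_succ n (by omega)
    have h00 : Q * (n / Q) ≤ n := Nat.mul_div_le n Q
    refine ⟨Nat.clog 2 (n / Q + 1), ?_, ?_⟩
    · exact h0.le.trans (Nat.mul_le_mul le_rfl (Nat.le_pow_clog (by norm_num) _))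
    · have h1 := Nat.pow_pred_clog_lt_self (b := 2) (by norm_num) (show 1 < n / Q + 1 by omega)
      have h2 : 0 < Nat.clog 2 (n / Q + 1) := Nat.clog_pos (by norm_num) (by omega)
      obtain ⟨k, hk⟩ : ∃ k, Nat.clog 2 (n / Q + 1) = k + 1 :=
        ⟨Nat.clog 2 (n / Q + 1) - 1, by omega⟩
      rw [hk] at h1 ⊢
      rw [Nat.pred_succ] at h1
      rw [pow_succ]
      have h3 : Q * (2 ^ k * 2) ≤ Q * ((n / Q) * 2) :=
        Nat.mul_le_mul le_rfl (Nat.mul_le_mul (by omega) le_rfl)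
      have h4 : Q * ((n / Q) * 2) = 2 * (Q * (n / Q)) := by ring
      omega
  obtain ⟨J, P₀, G, hG, hP, hN, hc⟩ := hκ h
  have hP1 : 1 ≤ P₀ := by
    rw [hP]
    exact Nat.one_le_iff_ne_zero.2 (mul_ne_zero (by omega)
      (Finset.prod_ne_zero_iff.2 fun i _ => by have := hG i; omega))
  have hP1r : (1 : ℝ) ≤ P₀ := by exact_mod_cast hP1
  have hQP : (1 : ℝ) ≤ ((Q * P₀ : ℕ) : ℝ) := by
    exact_mod_cast Nat.one_le_iff_ne_zero.2 (mul_ne_zero (by omega) (by omega))
  have hlQP : 0 ≤ Real.log (Q * P₀ : ℕ) := Real.log_nonneg hQP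
  set U : ℕ := ⌈2200 * (1 + Real.log (Q * P₀ : ℕ))⌉₊ with hU
  have hU1 : 1 ≤ U := Nat.ceil_pos.2 (by positivity)
  have hUr : (1 : ℝ) ≤ U := by exact_mod_cast hU1
  have hU2 : (U : ℝ) ≤ 2201 * (1 + Real.log (Q * P₀ : ℕ)) := by
    have h1 := (Nat.ceil_lt_add_one (show 0 ≤ 2200 * (1 + Real.log (Q * P₀ : ℕ)) by positivity)).le
    linarith
  have hcst := hc Q U hQ1 (Nat.le_ceil _)
  have hu : 1 ≤ 2 ^ J * U := Nat.one_le_iff_ne_zero.2 (mul_ne_zero (by positivity) (by omega))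
  have hs : (1 : ℝ) ≤ √2 ^ h := one_le_pow₀ (Real.one_le_sqrt.2 (by norm_num))
  have hJ : (1 : ℝ) ≤ 2 ^ J := one_le_pow₀ (by norm_num)
  set X : ℝ := ((2 ^ J * U) * (Q * P₀)) * √2 ^ h with hX
  have hX1 : 1 ≤ X := by
    rw [hX]
    refine one_le_mul_of_one_le_of_one_le (one_le_mul_of_one_le_of_one_le
      (one_le_mul_of_one_le_of_one_le hJ hUr) (one_le_mul_of_one_le_of_one_le hQr hP1r)) hs
  have hW : Cost (tree (2 ^ J * U) (Q * P₀) G h) 1 (7 * X) := by
    refine Cost.of_cst_lt le_rfl (lt_of_le_of_lt hcst ?_)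
    rw [hX] at hX1 ⊢
    linarith
  have hm : n ≤ 2 ^ h * ((2 ^ J * U) * (Q * P₀)) := by
    calc n ≤ Q * 2 ^ h := hh1
      _ = 2 ^ h * (1 * (Q * 1)) := by ring
      _ ≤ _ := Nat.mul_le_mul le_rfl (Nat.mul_le_mul hu (Nat.mul_le_mul le_rfl hP1))
  obtain ⟨F, hF, hF1, hF2⟩ := exists_fun n hn h (2 ^ J * U) Q P₀ G hG hu hP hm hδ0 hδQ hW
  refine ⟨7 * X, F, by linarith, ?_, hF, hF1, hF2⟩
  · -- numbers
    have hh3 : (2 : ℝ) ^ h ≤ 4 * n := by
      have h1 : 2 ^ h ≤ 4 * n := le_trans (Nat.le_mul_of_pos_left _ (by omega)) hh2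
      exact_mod_cast h1
    have hlog : ((h + 2 : ℕ) : ℝ) ≤ 6 * (1 + Real.log n) := by
      have h1 : (h : ℝ) * Real.log 2 ≤ Real.log (4 * n) := by
        rw [← Real.log_pow]
        exact Real.log_le_log (by positivity) hh3
      have h2 : Real.log (4 * n) = 2 * Real.log 2 + Real.log n := by
        rw [Real.log_mul (by norm_num) (by positivity), show (4 : ℝ) = 2 ^ 2 by norm_num,
          Real.log_pow]
        norm_num
      have h3 : (0.6931471803 : ℝ) < Real.log 2 := Real.log_two_gt_d9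
      push_cast
      nlinarith
    have hlog' : (h : ℝ) + 2 ≤ 6 * (1 + Real.log n) := by
      have := hlog
      push_cast at this
      exact this
    have hN1 : ((2 ^ J * P₀ : ℕ) : ℝ) ≤ ((h + 2 : ℕ) : ℝ) ^ κ := by exact_mod_cast hN
    have hN2 : (2 ^ J * P₀ : ℝ) ≤ (6 * (1 + Real.log n)) ^ κ := by
      push_cast at hN1
      exact hN1.trans (pow_le_pow_left₀ (by positivity) hlog' κ)
    have hP2 : (P₀ : ℝ) ≤ ((h : ℝ) + 2) ^ κ := by
      push_cast at hN1
      have : (P₀ : ℝ) ≤ 2 ^ J * P₀ := le_mul_of_one_le_left (by linarith) hJ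
      linarith
    have hlP : Real.log P₀ ≤ κ * (6 * (1 + Real.log n)) := by
      have h1 : Real.log P₀ ≤ κ * Real.log ((h : ℝ) + 2) := by
        rw [← Real.log_pow]
        exact Real.log_le_log (by linarith) hP2
      have h2 : Real.log ((h : ℝ) + 2) ≤ (h : ℝ) + 2 :=
        (Real.log_le_sub_one_of_pos (by positivity)).trans (by linarith)
      have h3 : (κ : ℝ) * Real.log ((h : ℝ) + 2) ≤ κ * (6 * (1 + Real.log n)) :=
        mul_le_mul_of_nonneg_left (h2.trans hlog') (Nat.cast_nonneg _)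
      linarith
    have hlQ : Real.log Q ≤ Real.log n :=
      Real.log_le_log (by linarith) (by exact_mod_cast hQn)
    have hU3 : (U : ℝ) ≤ 2201 * (1 + 6 * κ) * (1 + Real.log n) := by
      have h1 : Real.log (Q * P₀ : ℕ) = Real.log Q + Real.log P₀ := by
        push_cast
        rw [Real.log_mul (by positivity) (by positivity)]
      rw [h1] at hU2
      nlinarith
    have hQs : (Q : ℝ) * √2 ^ h ≤ 3 * √(n / δ) := by
      have h1 : ((Q : ℝ) * √2 ^ h) ^ 2 ≤ (3 * √(n / δ)) ^ 2 := by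
        rw [mul_pow, mul_pow, Real.sq_sqrt (by positivity), ← pow_mul, mul_comm h 2, pow_mul,
          Real.sq_sqrt (by norm_num)]
        have h2 : (Q : ℝ) * 2 ^ h ≤ 4 * n := by exact_mod_cast hh2
        calc (Q : ℝ) ^ 2 * 2 ^ h = Q * (Q * 2 ^ h) := by ring
          _ ≤ (2 / δ) * (4 * n) := mul_le_mul hQ2 h2 (by positivity) (by positivity)
          _ = 8 * (n / δ) := by ring
          _ ≤ 3 ^ 2 * (n / δ) := by
              have : 0 ≤ (n : ℝ) / δ := by positivity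
              linarith
      exact le_of_sq_le_sq h1 (by positivity)
    have hA : (2 ^ J * P₀ : ℝ) * U ≤ (6 * (1 + Real.log n)) ^ κ *
        (2201 * (1 + 6 * κ) * (1 + Real.log n)) := mul_le_mul hN2 hU3 (by positivity) (by positivity)
    calc 7 * X = 7 * (((2 ^ J * P₀ : ℝ) * U) * (Q * √2 ^ h)) := by rw [hX]; ring
      _ ≤ 7 * (((6 * (1 + Real.log n)) ^ κ * (2201 * (1 + 6 * κ) * (1 + Real.log n))) *
            (3 * √(n / δ))) := by
        refine mul_le_mul_of_nonneg_left (mul_le_mul hA hQs (by positivity) (by positivity))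
          (by norm_num)
      _ = _ := by rw [mul_pow, pow_succ]; ring

theorem wt_compl' {m : ℕ} (x : Fin m → Bool) :
    wt x + (Finset.univ.filter fun i => x i = false).card = m := by
  have := Finset.card_filter_add_card_filter_not (s := (Finset.univ : Finset (Fin m)))
    (fun i => x i = true)
  simp only [Bool.not_eq_true, Finset.card_univ, Fintype.card_fin] at this
  exact this

theorem card_comp_le {m n : ℕ} (h : m ≤ n) (x : Fin n → Bool) (c : Bool) :
    (Finset.univ.filter fun i : Fin m => (x ∘ Fin.castLE h) i = c).card ≤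
      (Finset.univ.filter fun i => x i = c).card := by
  refine Finset.card_le_card_of_injOn (Fin.castLE h) (fun i hi => ?_)
    (Fin.castLE_injective h).injOn
  simp only [Finset.coe_filter, Finset.mem_univ, true_and, Set.mem_ofPred_eq,
    Function.comp_apply] at hi ⊢
  exact hi

/-- The upper bound, for every gap `δ ∈ [1/n, 1]`. -/
theorem upper : ∃ (C : ℝ) (κ : ℕ), 0 ≤ C ∧ ∀ n : ℕ, 2 ≤ n → ∀ δ : ℝ, 1 / (n : ℝ) ≤ δ → δ ≤ 1 →
    ∃ (d : ℕ) (f : (Fin n → Bool) → ℝ),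
      (d : ℝ) ≤ C * (1 + √((1 - δ) * n / δ)) * (1 + Real.log n) ^ κ ∧
      f ∈ H87AM.Deg (Fin n) d ∧
      (∀ x, f x ∈ Set.Icc (-1:ℝ) (-(7/8)) ∪ Set.Icc (7/8) 1) ∧
      (∀ x, δ * n ≤ 2 * (wt x : ℝ) - n → 7/8 ≤ f x) ∧
      (∀ x, 2 * (wt x : ℝ) - n ≤ -(δ * n) → f x ≤ -(7/8)) := by
  obtain ⟨C, κ, hC, hup⟩ := upperF
  refine ⟨1000 * (C * 4), κ, by positivity, fun n hn δ hδn hδ1 => ?_⟩
  have hn0 : (2 : ℝ) ≤ n := by exact_mod_cast hn
  have hδ0 : 0 < δ := lt_of_lt_of_le (by positivity) hδn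
  have hl0 : 0 ≤ Real.log n := Real.log_nonneg (by linarith)
  have key : ∃ (W : ℝ) (F : (Fin n → Bool) → Bool), 1 ≤ W ∧
      W ≤ C * (4 * (1 + √((1 - δ) * n / δ))) * (1 + Real.log n) ^ κ ∧
      KC {x | F x = true} {x | F x = false} (fun _ _ => 1) W ∧
      (∀ x, δ * n ≤ 2 * (wt x : ℝ) - n → F x = true) ∧
      (∀ x, 2 * (wt x : ℝ) - n ≤ -(δ * n) → F x = false) := by
    rcases le_or_gt δ (1 / 2) with hδ | hδ
    · obtain ⟨W, F, hW1, hW, hF⟩ := hup n (by omega) δ hδn hδ1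
      refine ⟨W, F, hW1, hW.trans ?_, hF⟩
      refine mul_le_mul_of_nonneg_right (mul_le_mul_of_nonneg_left ?_ hC) (by positivity)
      have h1 : √(n / δ) ≤ √(4 ^ 2 * ((1 - δ) * n / δ)) := by
        apply Real.sqrt_le_sqrt
        rw [← mul_div_assoc]
        apply div_le_div_of_nonneg_right _ hδ0.le
        nlinarith
      rw [Real.sqrt_mul (by norm_num), Real.sqrt_sq (by norm_num)] at h1
      linarith
    · set m : ℕ := max 2 ⌈2 * ((1 - δ) * n)⌉₊ with hm
      have h0 : 0 ≤ (1 - δ) * n := mul_nonneg (by linarith) (by linarith)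
      have hmn : m ≤ n := by
        refine max_le hn (Nat.ceil_le.2 ?_)
        nlinarith
      have hm2 : 2 ≤ m := le_max_left _ _
      have hm2r : (2 : ℝ) ≤ m := by exact_mod_cast hm2
      have hmnr : (m : ℝ) ≤ n := by exact_mod_cast hmn
      have hml : 2 * ((1 - δ) * n) ≤ m :=
        (Nat.le_ceil _).trans (by exact_mod_cast le_max_right _ _)
      have hmu : (m : ℝ) ≤ 2 * ((1 - δ) * n) + 2 := by
        rw [hm]
        push_cast
        refine max_le (by linarith) ?_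
        have := (Nat.ceil_lt_add_one (show 0 ≤ 2 * ((1 - δ) * n) by positivity)).le
        linarith
      have h12 : 1 / (m : ℝ) ≤ 1 / 2 := one_div_le_one_div_of_le (by norm_num) hm2r
      obtain ⟨W, F, hW1, hW, hF, hF1, hF2⟩ := hup m (by omega) (1 / 2) h12 (by norm_num)
      refine ⟨W, fun x => F (x ∘ Fin.castLE hmn), hW1, hW.trans ?_, ?_, fun x hx => ?_,
        fun x hx => ?_⟩
      · have h1 : √((m : ℝ) / (1 / 2)) ≤ 4 * (1 + √((1 - δ) * n / δ)) := by
          have h2 : √((1 - δ) * n) ≤ √((1 - δ) * n / δ) := by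
            apply Real.sqrt_le_sqrt
            rw [le_div_iff₀ hδ0]
            exact mul_le_of_le_one_right h0 hδ1
          have h3 : √((m : ℝ) / (1 / 2)) ≤ 2 * (1 + √((1 - δ) * n)) := by
            apply Real.sqrt_le_iff.2
            refine ⟨by positivity, ?_⟩
            have h4 := Real.sq_sqrt h0
            have h5 := Real.sqrt_nonneg ((1 - δ) * n)
            nlinarith
          have h6 := Real.sqrt_nonneg ((1 - δ) * n / δ)
          linarith
        have h7 : (1 + Real.log m) ^ κ ≤ (1 + Real.log n) ^ κ := by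
          have h8 : Real.log m ≤ Real.log n := Real.log_le_log (by linarith) hmnr
          have h9 : 0 ≤ Real.log m := Real.log_nonneg (by linarith)
          exact pow_le_pow_left₀ (by linarith) (by linarith) κ
        exact mul_le_mul (mul_le_mul_of_nonneg_left h1 hC) h7
          (by have h9 : 0 ≤ Real.log m := Real.log_nonneg (by linarith); positivity)
          (by positivity)
      · exact KC.comap (Fin.castLE hmn) hF
      · apply hF1
        have h1 := wt_compl' x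
        have h2 := wt_compl' (x ∘ Fin.castLE hmn)
        have h3 := card_comp_le hmn x false
        have h4 : (m : ℝ) - wt (x ∘ Fin.castLE hmn) ≤ n - wt x := by
          have h5 : m + wt x ≤ n + wt (x ∘ Fin.castLE hmn) := by omega
          have h6 : (m : ℝ) + wt x ≤ n + wt (x ∘ Fin.castLE hmn) := by exact_mod_cast h5
          linarith
        linarith
      · apply hF2
        have h3 := card_comp_le hmn x true
        have h4 : (wt (x ∘ Fin.castLE hmn) : ℝ) ≤ wt x := by exact_mod_cast h3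
        linarith
  obtain ⟨W, F, hW1, hW, hF, hF1, hF2⟩ := key
  obtain ⟨d, f, hd, hf, hf1, hf2⟩ := exists_poly F hW1 hF
  refine ⟨d, f, ?_, hf, fun x => ?_, fun x hx => (hf1 x (hF1 x hx)).1,
    fun x hx => (hf2 x (hF2 x hx)).2⟩
  · calc (d : ℝ) ≤ 1000 * W := hd
      _ ≤ 1000 * (C * (4 * (1 + √((1 - δ) * n / δ))) * (1 + Real.log n) ^ κ) :=
        mul_le_mul_of_nonneg_left hW (by norm_num)
      _ = _ := by ring
  · cases hx : F x with
    | true => exact Or.inr ⟨(hf1 x hx).1, (hf1 x hx).2⟩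
    | false => exact Or.inl ⟨(hf2 x hx).1, (hf2 x hx).2⟩

end Pool.Agent.H51.GD
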