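import Pool.Agent.H51.GD.FL
import Pool.Agent.H8.AP.Num

/-!
# The costs of the tree with a large number of values

The numerical theorem is applied to a window of `T j` values around each threshold; the far tail
is replaced by the constant `B`.
-/

set_option autoImplicit false

open Finset

namespace Pool.Agent.H51.GD

open H8AP

/-- The width of the window. -/
def Tw (h : ℕ) (G : ℕ → ℕ) (j : ℕ) : ℕ := 16 * (h + 1) * ∏ i ∈ Finset.Ico j h, G i

lemma Tw_succ {h : ℕ} {G : ℕ → ℕ} {j : ℕ} (hj : j < h) : Tw h G j = G j * Tw h G (j + 1) := by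
  unfold Tw
  rw [Finset.prod_eq_prod_Ico_succ_bot hj]
  ring

lemma Tw_ge {h : ℕ} {G : ℕ → ℕ} (hG : ∀ j, 1 ≤ G j) (j : ℕ) : 16 * (h + 1) ≤ Tw h G j := by
  unfold Tw
  exact Nat.le_mul_of_pos_right _ (Nat.pos_of_ne_zero (Finset.prod_ne_zero_iff.2 fun i _ => by
    have := hG i; omega))

lemma Tw_const {h : ℕ} {G : ℕ → ℕ} {i : ℕ} : ∀ s, i + s ≤ h → (∀ l, i ≤ l → l < i + s → G l = 1) →
    Tw h G (i + s) = Tw h G i := by
  intro s
  induction s with
  | zero => intro _ _; rfl
  | succ s ih =>
    intro hs hG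
    have h1 := ih (by omega) (fun l h1 h2 => hG l h1 (by omega))
    have h2 := Tw_succ (h := h) (G := G) (j := i + s) (by omega)
    rw [hG (i + s) (by omega) (by omega), one_mul] at h2
    rw [← h1, h2]
    rfl

/-- **The cost of a unit threshold at the root, with `Q` times as many values.** -/
theorem root : ∃ κ : ℕ, ∀ h : ℕ, ∃ (J P₀ : ℕ) (G : ℕ → ℕ),
    (∀ j, 1 ≤ G j) ∧ P₀ = 16 * (h + 1) * ∏ i ∈ Finset.range h, G i ∧
    2 ^ J * P₀ ≤ (h + 2) ^ κ ∧
    ∀ Q U : ℕ, 1 ≤ Q → 2200 * (1 + Real.log (Q * P₀ : ℕ)) ≤ U →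
      cst (tree (2 ^ J * U) (Q * P₀) G h) 1 ≤ 6 * ((2 ^ J * U) * (Q * P₀)) * √2 ^ h := by
  classical
  obtain ⟨κ, hκ⟩ := numeric
  refine ⟨κ, fun h => ?_⟩
  obtain ⟨J, P₀, G, hG, hP₀, hN, hc⟩ := hκ h
  refine ⟨J, P₀, G, hG, hP₀, hN, fun Q U hQ hU => ?_⟩
  set P : ℕ := Q * P₀ with hP
  have hT0 : Tw h G 0 = P₀ := by
    unfold Tw
    rw [hP₀, Finset.range_eq_Ico]
  have hP16 : 16 ≤ P₀ := by
    rw [← hT0]
    have := Tw_ge (h := h) hG 0
    omega
  have hlog : 0 ≤ Real.log P := Real.log_natCast_nonneg P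
  have hQr : (1 : ℝ) ≤ Q := by exact_mod_cast hQ
  have hP₀r : (16 : ℝ) ≤ P₀ := by exact_mod_cast hP16
  have hPr : (P : ℝ) = Q * P₀ := by rw [hP]; push_cast; ring
  have hP1 : (1 : ℝ) ≤ P := by rw [hPr]; nlinarith
  have hUr : (2200 : ℝ) ≤ U := by nlinarith
  have hU1 : 1 ≤ U := by
    have : (0 : ℝ) < U := by linarith
    exact_mod_cast this
  have hu : 1 ≤ 2 ^ J * U := Nat.mul_pos (by positivity) hU1
  have hJ : (1 : ℝ) ≤ 2 ^ J := one_le_pow₀ (by norm_num)
  set c : ℕ → ℕ → ℝ := fun j t => cst (tree (2 ^ J * U) P G j) t with hcdef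
  have c0 : ∀ j t, 0 ≤ c j t := fun j t => cst_nonneg t
  set E : ℝ := 2 * P * (1 + Real.log P) with hE
  have hE0 : 0 < E := by rw [hE]; positivity
  set B : ℝ := 1100 * E with hB
  have hB0 : 0 < B := by rw [hB]; positivity
  set S : ℝ := 2 * U * Q with hS
  have hS0 : 0 < S := by rw [hS]; nlinarith
  have tail : ∀ j, j ≤ h → ∑ t ∈ Finset.Ioc (Tw h G j) P, c j t ≤ E := by
    intro j hj
    refine tree_tail hu hG ?_
    have := Tw_ge (h := h) hG j
    omega
  -- `B ≤ u P`
  have hBu : B ≤ (2 ^ J * U) * P := by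
    have h1 : B = P * (2200 * (1 + Real.log P)) := by rw [hB, hE]; ring
    rw [h1]
    have h2 : (P : ℝ) * (2200 * (1 + Real.log P)) ≤ P * U := mul_le_mul_of_nonneg_left hU (by linarith)
    have h3 : (P : ℝ) * U ≤ (2 ^ J * U) * P := by
      have : (0 : ℝ) ≤ U * P := by positivity
      nlinarith
    linarith
  set w : ℕ → ℕ → ℝ := fun j t => if j ≤ h ∧ t ≤ Tw h G j then (c j t + B) / S else 0 with hw
  have w0 : ∀ j t, 0 ≤ w j t := by
    intro j t
    simp only [hw]
    split_ifs
    · exact div_nonneg (by linarith [c0 j t]) hS0.le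
    · exact le_rfl
  have wpos : ∀ {j t}, j ≤ h → t ≤ Tw h G j → w j t = (c j t + B) / S := by
    intro j t h1 h2
    simp only [hw]
    rw [if_pos ⟨h1, h2⟩]
  have TP : ∀ j, j ≤ h → Tw h G j ≤ P₀ := by
    intro j hj
    rw [← hT0]
    unfold Tw
    refine Nat.mul_le_mul le_rfl ?_
    rw [← Finset.prod_Ico_consecutive G (Nat.zero_le j) hj]
    exact Nat.le_mul_of_pos_left _ (Nat.pos_of_ne_zero (Finset.prod_ne_zero_iff.2 fun i _ => by
      have := hG i; omega))
  have key := hc w w0 ?_ ?_ ?_ ?_
  · -- conclusion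
    have h1 : (1 : ℕ) ≤ Tw h G h := by
      have := Tw_ge (h := h) hG h
      omega
    rw [wpos le_rfl h1, div_le_iff₀ hS0] at key
    have h2 : c h 1 ≤ 3 * (2 ^ J * P₀) * √2 ^ h * S := by linarith
    refine h2.trans (le_of_eq ?_)
    rw [hS]
    push_cast
    ring
  · -- (H)
    intro j d hd
    by_cases hj : j + 1 ≤ h ∧ d ≤ Tw h G (j + 1)
    · obtain ⟨hj, hdT⟩ := hj
      have hTs := Tw_succ (h := h) (G := G) (j := j) hj
      set e := G j * (d - 1) + 1 with he
      have heT : e ≤ Tw h G j := by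
        rw [hTs, he]
        have h1 := hG j
        calc G j * (d - 1) + 1 ≤ G j * (d - 1) + G j := by omega
          _ = G j * (d - 1 + 1) := by ring
          _ = G j * d := by rw [Nat.sub_add_cancel hd]
          _ ≤ _ := Nat.mul_le_mul le_rfl hdT
      have h1 : c (j + 1) d ≤ √2 * c j e + 432 * ∑ t ∈ Finset.Ioc e P, c j t :=
        cst_step (tree_bdd hu hG j) (hG j) hd
      have h2 : ∑ t ∈ Finset.Ioc e P, c j t ≤ ∑ t ∈ Finset.Ioc e (Tw h G j), c j t + E := by
        calc ∑ t ∈ Finset.Ioc e P, c j t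
            ≤ ∑ t ∈ Finset.Ioc e (Tw h G j) ∪ Finset.Ioc (Tw h G j) P, c j t := by
              apply Finset.sum_le_sum_of_subset_of_nonneg
              · intro t ht
                rw [Finset.mem_Ioc] at ht
                rw [Finset.mem_union, Finset.mem_Ioc, Finset.mem_Ioc]
                omega
              · intro t _ _; exact c0 j t
          _ ≤ ∑ t ∈ Finset.Ioc e (Tw h G j), c j t + ∑ t ∈ Finset.Ioc (Tw h G j) P, c j t := by
              rw [Finset.sum_union]
              rw [Finset.disjoint_left]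
              intro t h3 h4
              rw [Finset.mem_Ioc] at h3 h4
              omega
          _ ≤ _ := by linarith [tail j (by omega)]
      have h3 : ∑ t ∈ Finset.Ioc e (Tw h G j), (c j t + B) / S ≤ ∑ t ∈ Finset.Ioc e P₀, w j t := by
        calc ∑ t ∈ Finset.Ioc e (Tw h G j), (c j t + B) / S
            = ∑ t ∈ Finset.Ioc e (Tw h G j), w j t := by
              apply Finset.sum_congr rfl; intro t ht
              rw [Finset.mem_Ioc] at ht
              rw [wpos (by omega) ht.2]
          _ ≤ _ := by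
              apply Finset.sum_le_sum_of_subset_of_nonneg
              · intro t ht
                rw [Finset.mem_Ioc] at ht ⊢
                have := TP j (by omega)
                omega
              · intro t _ _; exact w0 j t
      have h4 : ∑ t ∈ Finset.Ioc e (Tw h G j), c j t ≤
          S * ∑ t ∈ Finset.Ioc e (Tw h G j), (c j t + B) / S := by
        rw [Finset.mul_sum]
        apply Finset.sum_le_sum; intro t _
        rw [mul_div_cancel₀ _ hS0.ne']
        linarith
      rw [wpos hj hdT, wpos (by omega) heT, div_le_iff₀ hS0]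
      have h5 : (√2 * ((c j e + B) / S) + 432 * ∑ t ∈ Finset.Ioc e P₀, w j t) * S =
          √2 * (c j e + B) + 432 * (S * ∑ t ∈ Finset.Ioc e P₀, w j t) := by
        field_simp
      rw [h5]
      have h6 : S * ∑ t ∈ Finset.Ioc e (Tw h G j), (c j t + B) / S ≤
          S * ∑ t ∈ Finset.Ioc e P₀, w j t := mul_le_mul_of_nonneg_left h3 hS0.le
      have h7 : (1.4 : ℝ) ≤ √2 := by
        apply Real.le_sqrt_of_sq_le
        norm_num
      have h8 : B + 432 * E ≤ √2 * B := by
        have h9 : 1.4 * B ≤ √2 * B := mul_le_mul_of_nonneg_right h7 hB0.le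
        rw [hB] at h9 ⊢
        linarith
      linarith
    · have : w (j + 1) d = 0 := by
        simp only [hw]
        rw [if_neg hj]
      rw [this]
      have h1 := w0 j (G j * (d - 1) + 1)
      have h2 : 0 ≤ ∑ t ∈ Finset.Ioc (G j * (d - 1) + 1) P₀, w j t :=
        Finset.sum_nonneg fun t _ => w0 j t
      positivity
  · -- (DD)
    intro i s d hl hd
    by_cases hj : i + s ≤ h ∧ d ≤ Tw h G (i + s)
    · obtain ⟨hj, hdT⟩ := hj
      have hTs := Tw_const (h := h) (G := G) (i := i) s hj hl
      rw [hTs] at hdT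
      have h1 : c (i + s) d ≤ 2 ^ s * (216 * ∑ t ∈ Finset.Icc d P, c i t) :=
        cst_dd (tree_bdd hu hG i) hl hd
      have h2 : ∑ t ∈ Finset.Icc d P, c i t ≤ ∑ t ∈ Finset.Icc d (Tw h G i), c i t + E := by
        calc ∑ t ∈ Finset.Icc d P, c i t
            ≤ ∑ t ∈ Finset.Icc d (Tw h G i) ∪ Finset.Ioc (Tw h G i) P, c i t := by
              apply Finset.sum_le_sum_of_subset_of_nonneg
              · intro t ht
                rw [Finset.mem_Icc] at ht
                rw [Finset.mem_union, Finset.mem_Icc, Finset.mem_Ioc]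
                omega
              · intro t _ _; exact c0 i t
          _ ≤ ∑ t ∈ Finset.Icc d (Tw h G i), c i t + ∑ t ∈ Finset.Ioc (Tw h G i) P, c i t := by
              rw [Finset.sum_union]
              rw [Finset.disjoint_left]
              intro t h3 h4
              rw [Finset.mem_Icc] at h3
              rw [Finset.mem_Ioc] at h4
              omega
          _ ≤ _ := by linarith [tail i (by omega)]
      have h3 : ∑ t ∈ Finset.Icc d (Tw h G i), (c i t + B) / S ≤ ∑ t ∈ Finset.Icc d P₀, w i t := by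
        calc ∑ t ∈ Finset.Icc d (Tw h G i), (c i t + B) / S
            = ∑ t ∈ Finset.Icc d (Tw h G i), w i t := by
              apply Finset.sum_congr rfl; intro t ht
              rw [Finset.mem_Icc] at ht
              rw [wpos (by omega) ht.2]
          _ ≤ _ := by
              apply Finset.sum_le_sum_of_subset_of_nonneg
              · intro t ht
                rw [Finset.mem_Icc] at ht ⊢
                have := TP i (by omega)
                omega
              · intro t _ _; exact w0 i t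
      have h4 : ∑ t ∈ Finset.Icc d (Tw h G i), c i t + B ≤
          S * ∑ t ∈ Finset.Icc d (Tw h G i), (c i t + B) / S := by
        have h5 : S * ∑ t ∈ Finset.Icc d (Tw h G i), (c i t + B) / S =
            ∑ t ∈ Finset.Icc d (Tw h G i), (c i t + B) := by
          rw [Finset.mul_sum]
          apply Finset.sum_congr rfl; intro t _
          rw [mul_div_cancel₀ _ hS0.ne']
        rw [h5, Finset.sum_add_distrib]
        have h6 : B ≤ ∑ t ∈ Finset.Icc d (Tw h G i), B :=
          Finset.single_le_sum (f := fun _ => B) (fun t _ => hB0.le)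
            (Finset.mem_Icc.2 ⟨le_rfl, hdT⟩)
        linarith
      rw [wpos hj (by rw [hTs]; exact hdT), div_le_iff₀ hS0]
      have h6 : S * ∑ t ∈ Finset.Icc d (Tw h G i), (c i t + B) / S ≤
          S * ∑ t ∈ Finset.Icc d P₀, w i t := mul_le_mul_of_nonneg_left h3 hS0.le
      have h7 : (1 : ℝ) ≤ 2 ^ s := one_le_pow₀ (by norm_num)
      have h8 : B + 2 ^ s * (216 * E) ≤ 2 ^ s * (216 * B) := by
        have h9 : B + 216 * E ≤ 216 * B := by rw [hB]; linarith
        have h10 : 0 ≤ (2 ^ s - 1) * (216 * (B - E)) := by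
          apply mul_nonneg (by linarith)
          rw [hB]; linarith
        linarith
      calc c (i + s) d + B ≤ 2 ^ s * (216 * ∑ t ∈ Finset.Icc d P, c i t) + B := by linarith
        _ ≤ 2 ^ s * (216 * (∑ t ∈ Finset.Icc d (Tw h G i), c i t + E)) + B := by
            have : (0 : ℝ) ≤ 2 ^ s * 216 := by positivity
            nlinarith
        _ ≤ 2 ^ s * (216 * (∑ t ∈ Finset.Icc d (Tw h G i), c i t + B)) := by linarith
        _ ≤ 2 ^ s * (216 * (S * ∑ t ∈ Finset.Icc d P₀, w i t)) := by
            have h11 : ∑ t ∈ Finset.Icc d (Tw h G i), c i t + B ≤ S * ∑ t ∈ Finset.Icc d P₀, w i t :=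
              h4.trans h6
            have : (0 : ℝ) ≤ 2 ^ s * 216 := by positivity
            nlinarith
        _ = _ := by ring
    · have : w (i + s) d = 0 := by
        simp only [hw]
        rw [if_neg hj]
      rw [this]
      have h2 : 0 ≤ ∑ t ∈ Finset.Icc d P₀, w i t := Finset.sum_nonneg fun t _ => w0 i t
      positivity
  · -- (FL)
    intro j t ht
    by_cases hj : j ≤ h ∧ t ≤ Tw h G j
    · rw [wpos hj.1 hj.2, div_le_iff₀ hS0]
      have h1 := tree_far (P := P) hu hG ht
      have ht' : ((j:ℝ) + 2) ≤ t := by exact_mod_cast ht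
      have h2 : (P : ℝ) / ((t : ℝ) - (j + 1)) ≤ P := by
        apply div_le_self (by linarith)
        linarith
      have h3 : c j t ≤ P := h1.trans h2
      have h4 : (0 : ℝ) ≤ j := Nat.cast_nonneg j
      have h5 : 36 * ((P₀ : ℝ)) * P₀ * S ≤ 36 * (P₀ + j + 2) * P₀ * S := by
        apply mul_le_mul_of_nonneg_right _ hS0.le
        apply mul_le_mul_of_nonneg_right _ (by linarith)
        linarith
      refine le_trans ?_ h5
      have h6 : 36 * ((P₀ : ℝ)) * P₀ * S = 72 * P₀ * P * U := by
        rw [hS, hPr]; ring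
      rw [h6]
      have h7 : B = P * (2200 * (1 + Real.log P)) := by rw [hB, hE]; ring
      have h8 : B ≤ P * U := by rw [h7]; exact mul_le_mul_of_nonneg_left hU (by linarith)
      have h9 : (P : ℝ) ≤ P * U := le_mul_of_one_le_right (by linarith) (by linarith)
      have h10 : (P : ℝ) * U * 2 ≤ 72 * P₀ * P * U := by
        have : (0 : ℝ) ≤ P * U := by positivity
        nlinarith
      linarith
    · have : w j t = 0 := by
        simp only [hw]
        rw [if_neg hj]
      rw [this]
      positivity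
  · -- (base)
    rw [wpos (Nat.zero_le _) (by rw [hT0]; omega), div_le_iff₀ hS0]
    have h1 : c 0 1 ≤ (2 ^ J * U) * P := by
      refine cst_le (by positivity) ?_
      have h1 := base_cost (u := 2 ^ J * U) (P := P) (le_refl 1)
      push_cast at h1
      exact h1
    have h2 : (2 : ℝ) ^ J * P₀ * S = 2 * ((2 ^ J * U) * P) := by
      rw [hS, hPr]; ring
    rw [h2]
    linarith

end Pool.Agent.H51.GD
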